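import Mathlib

/-!
# SX-CJ: the choice of the multilinearity

`r = log R₀ / log K`, `d` = the exponent of the arcs. `J = ⌈(r + 3 - 2 d - δ) / (1 + d)⌉`.
-/

set_option autoImplicit false

namespace Pool.Agent.Helper85.SX

/-- the choice of `J` for the sup over all radii and all centres -/
theorem choose_J' {r d e δ : ℝ} (he : 0 ≤ e) (he1 : e ≤ 1 / 10) (hδ : 0 ≤ δ) (hδ1 : δ ≤ 1 / 10)
    (hr : 2 - e ≤ r) (hd : 0 < d) (hd1 : d ≤ 1 / 2) :
    ∃ J : ℕ, 3 ≤ J ∧ (J : ℝ) ≤ r + 4 ∧ (2 * (J : ℝ) - 3) * d ≤ r - δ ∧ (2 * (J : ℝ) - 1) * d ≤ 1 + r ∧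
      r + 3 - 2 * d + max 0 ((2 * (J : ℝ) - 1) * d - r) + max 0 ((2 * (J : ℝ) - 2) * d - r) ≤
        J * (1 + d) + max δ e := by
  set x : ℝ := (r + 3 - 2 * d - δ) / (1 + d) with hx
  have h1d : 0 < 1 + d := by linarith
  have hxe : x * (1 + d) = r + 3 - 2 * d - δ := by rw [hx]; field_simp
  have hx0 : 0 ≤ x := by
    rw [hx]; apply div_nonneg <;> linarith
  set J : ℕ := ⌈x⌉₊ with hJ
  have hlow : x ≤ J := Nat.le_ceil x
  have hup : (J : ℝ) < x + 1 := Nat.ceil_lt_add_one hx0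
  have hA : r + 3 - 2 * d - δ ≤ J * (1 + d) := by
    rw [← hxe]; exact mul_le_mul_of_nonneg_right hlow h1d.le
  have hB : J * (1 + d) < r + 4 - d - δ := by
    have := mul_lt_mul_of_pos_right hup h1d
    linarith
  have hJ3 : 3 ≤ J := by
    by_contra h
    have h2 : J ≤ 2 := by omega
    have h2' : (J : ℝ) ≤ 2 := by exact_mod_cast h2
    nlinarith
  have hJ3' : (3 : ℝ) ≤ J := by exact_mod_cast hJ3
  have hmde : δ ≤ max δ e := le_max_left _ _
  have hmee : e ≤ max δ e := le_max_right _ _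
  have hC : (2 * (J : ℝ) - 3) * d ≤ r - δ := by
    rcases Nat.lt_or_ge J 4 with h | h
    · have hJe : (J : ℝ) = 3 := by
        have : J = 3 := by omega
        exact_mod_cast this
      rw [hJe]; nlinarith
    · have h4 : (4 : ℝ) ≤ J := by exact_mod_cast h
      have h5 : 0 ≤ ((J : ℝ) - 4) * (1 - d) := mul_nonneg (by linarith) (by linarith)
      nlinarith
  refine ⟨J, hJ3, ?_, hC, by linarith, ?_⟩
  · nlinarith [mul_nonneg (by linarith : (0 : ℝ) ≤ (J : ℝ)) hd.le]
  · rcases le_or_gt ((2 * (J : ℝ) - 1) * d - r) 0 with h1 | h1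
    · have h2 : (2 * (J : ℝ) - 2) * d - r ≤ 0 := by nlinarith
      rw [max_eq_left h1, max_eq_left h2]
      linarith
    · rw [max_eq_right h1.le]
      have h3 : 0 ≤ ((J : ℝ) - 3) * (1 - d) := mul_nonneg (by linarith) (by linarith)
      rcases le_or_gt ((2 * (J : ℝ) - 2) * d - r) 0 with h2 | h2
      · rw [max_eq_left h2]
        have : 0 ≤ max δ e := hδ.trans hmde
        nlinarith
      · rw [max_eq_right h2.le]
        rcases Nat.lt_or_ge J 4 with h | h
        · have hJe : (J : ℝ) = 3 := by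
            have : J = 3 := by omega
            exact_mod_cast this
          rw [hJe]
          nlinarith
        · have h4 : (4 : ℝ) ≤ J := by exact_mod_cast h
          have h5 : 0 ≤ ((J : ℝ) - 4) * (1 - d) := mul_nonneg (by linarith) (by linarith)
          have : 0 ≤ max δ e := hδ.trans hmde
          nlinarith

end Pool.Agent.Helper85.SX
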