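import Pool.Agent.Helper22.AE.D2
import Pool.Agent.Helper85.SX.D1x

/-!
# SX-D2: the number of collisions, rectangle instead of square

`collisions_rect`: hypotheses of AE `collisions`; the solutions `k' 0` lie in a rectangle of sides `≈ ρ = 25 J 4^J η / τ^(2J-1)` (radial)
and `≈ σ = 2 · 4^J η / τ^(2J-2)` (tangential): at most `(2ρ+1)(3σ+1)`.
-/

open Real Set Filter Topology

set_option autoImplicit false

namespace Pool.Agent.Helper85.SX

open Pool.Agent.Helper22.AE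

private lemma icc_card (a b : ℝ) (hab : a ≤ b + 1) : ((Finset.Icc ⌈a⌉ ⌊b⌋).card : ℝ) ≤ b - a + 1 := by
  rw [Int.card_Icc]
  have h1 : (⌊b⌋ : ℝ) ≤ b := Int.floor_le _
  have h2 : a ≤ ⌈a⌉ := Int.le_ceil _
  rcases le_or_gt 0 (⌊b⌋ + 1 - ⌈a⌉) with h | h
  · have h3 : (((⌊b⌋ + 1 - ⌈a⌉).toNat : ℕ) : ℝ) = ((⌊b⌋ + 1 - ⌈a⌉ : ℤ) : ℝ) := by
      have := Int.toNat_of_nonneg h
      exact_mod_cast this
    rw [h3]
    push_cast
    linarith
  · rw [Int.toNat_of_nonpos h.le]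
    push_cast
    linarith

private lemma dx_fst (k q : ℤ × ℤ) : |(k.1 : ℝ) - q.1| ≤ ‖cz k - cz q‖ := by
  have h := Complex.abs_re_le_norm (cz k - cz q)
  simpa [cz] using h

private lemma dx_snd (k q : ℤ × ℤ) : |(k.2 : ℝ) - q.2| ≤ ‖cz k - cz q‖ := by
  have h := Complex.abs_im_le_norm (cz k - cz q)
  simpa [cz] using h

private lemma dx_lt_one {k q : ℤ × ℤ} (h : ‖cz k - cz q‖ < 1) : k = q := by
  have h1 := abs_lt.mp ((dx_fst k q).trans_lt h)
  have h2 := abs_lt.mp ((dx_snd k q).trans_lt h)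
  have e : ∀ a b : ℤ, -1 < (a : ℝ) - b → (a : ℝ) - b < 1 → a = b := by
    intro a b ha hb
    have h3 : -1 < a - b := by exact_mod_cast ha
    have h4 : a - b < 1 := by exact_mod_cast hb
    omega
  exact Prod.ext (e _ _ h1.1 h1.2) (e _ _ h2.1 h2.2)

/-- counting in a strip, first coordinate large -/
private lemma strip_card (a b x : ℤ) {ρ σ N : ℝ} (hρ : 0 ≤ ρ) (hσ : 0 ≤ σ) (hN : 0 ≤ N) (ha : a ≠ 0)
    (hNa : N ≤ 3 / 2 * |(a : ℝ)|) (S : Finset (ℤ × ℤ))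
    (h1 : ∀ q ∈ S, |(x : ℝ) - q.1| ≤ ρ) (h2 : ∀ q ∈ S, |(a : ℝ) * q.2 - b * q.1| ≤ N * σ) :
    (S.card : ℝ) ≤ (2 * ρ + 1) * (3 * σ + 1) := by
  classical
  have ha0 : 0 < |(a : ℝ)| := by positivity
  have hfib : ∀ u ∈ S.image Prod.fst, ((S.filter (fun q => q.1 = u)).card : ℝ) ≤ 3 * σ + 1 := by
    intro u _
    have hinj : Set.InjOn (fun q : ℤ × ℤ => q.2) ((S.filter (fun q => q.1 = u)) : Set (ℤ × ℤ)) := by
      intro p hp q hq h
      have hp' := (Finset.mem_filter.1 (Finset.mem_coe.1 hp)).2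
      have hq' := (Finset.mem_filter.1 (Finset.mem_coe.1 hq)).2
      exact Prod.ext (hp'.trans hq'.symm) h
    rw [← Finset.card_image_of_injOn hinj]
    set c : ℝ := b * u / a with hc
    have hsub : (S.filter (fun q => q.1 = u)).image (fun q : ℤ × ℤ => q.2) ⊆
        Finset.Icc ⌈c - 3 / 2 * σ⌉ ⌊c + 3 / 2 * σ⌋ := by
      intro y hy
      obtain ⟨q, hq, rfl⟩ := Finset.mem_image.1 hy
      obtain ⟨hqS, hqu⟩ := Finset.mem_filter.1 hq
      have h3 := h2 q hqS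
      rw [hqu] at h3
      have h4 : (a : ℝ) * q.2 - b * u = a * ((q.2 : ℝ) - c) := by
        have : (a : ℝ) ≠ 0 := by exact_mod_cast ha
        rw [hc]; field_simp
      rw [h4, abs_mul] at h3
      have h5 : |(q.2 : ℝ) - c| ≤ 3 / 2 * σ := by
        have : |(a : ℝ)| * |(q.2 : ℝ) - c| ≤ |(a : ℝ)| * (3 / 2 * σ) := by
          refine h3.trans ?_
          calc N * σ ≤ 3 / 2 * |(a : ℝ)| * σ := by gcongr
            _ = _ := by ring
        exact le_of_mul_le_mul_left this ha0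
      have h6 := abs_le.1 h5
      rw [Finset.mem_Icc]
      exact ⟨Int.ceil_le.mpr (by linarith [h6.1]), Int.le_floor.mpr (by linarith [h6.2])⟩
    have := Finset.card_le_card hsub
    have h7 := icc_card (c - 3 / 2 * σ) (c + 3 / 2 * σ) (by linarith)
    have h8 : (((S.filter (fun q => q.1 = u)).image (fun q : ℤ × ℤ => q.2)).card : ℝ) ≤
        ((Finset.Icc ⌈c - 3 / 2 * σ⌉ ⌊c + 3 / 2 * σ⌋).card : ℝ) := by exact_mod_cast this
    linarith
  have himg : ((S.image Prod.fst).card : ℝ) ≤ 2 * ρ + 1 := by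
    have hsub : S.image Prod.fst ⊆ Finset.Icc ⌈(x : ℝ) - ρ⌉ ⌊(x : ℝ) + ρ⌋ := by
      intro y hy
      obtain ⟨q, hq, rfl⟩ := Finset.mem_image.1 hy
      have h6 := abs_le.1 (h1 q hq)
      rw [Finset.mem_Icc]
      exact ⟨Int.ceil_le.mpr (by linarith [h6.2]), Int.le_floor.mpr (by linarith [h6.1])⟩
    have h7 := icc_card ((x : ℝ) - ρ) ((x : ℝ) + ρ) (by linarith)
    have h8 : ((S.image Prod.fst).card : ℝ) ≤ ((Finset.Icc ⌈(x : ℝ) - ρ⌉ ⌊(x : ℝ) + ρ⌋).card : ℝ) := by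
      exact_mod_cast Finset.card_le_card hsub
    linarith
  have hsum : (S.card : ℝ) = ∑ u ∈ S.image Prod.fst, ((S.filter (fun q => q.1 = u)).card : ℝ) := by
    rw [Finset.card_eq_sum_card_image Prod.fst S]
    push_cast
    rfl
  rw [hsum]
  calc ∑ u ∈ S.image Prod.fst, ((S.filter (fun q => q.1 = u)).card : ℝ)
      ≤ ∑ _u ∈ S.image Prod.fst, (3 * σ + 1) := Finset.sum_le_sum hfib
    _ = ((S.image Prod.fst).card : ℝ) * (3 * σ + 1) := by rw [Finset.sum_const, nsmul_eq_mul]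
    _ ≤ _ := by gcongr

/-- the number of lattice points of a rectangle around `k`, with the long side in the direction of `k` -/
theorem int_rect_card (k : ℤ × ℤ) (hk : 0 < nk k) {ρ σ : ℝ} (hρ : 0 ≤ ρ) (hσ : 0 ≤ σ) (S : Finset (ℤ × ℤ))
    (hS : ∀ q ∈ S, ‖cz k - cz q‖ ≤ ρ) (hS2 : ∀ q ∈ S, |(k.1 : ℝ) * q.2 - k.2 * q.1| ≤ nk k * σ) :
    (S.card : ℝ) ≤ (2 * ρ + 1) * (3 * σ + 1) := by
  have hsq : nk k ^ 2 = (k.1 : ℝ) ^ 2 + (k.2 : ℝ) ^ 2 := by
    unfold nk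
    rw [← Complex.normSq_eq_norm_sq, Complex.normSq_apply]
    simp [cz]
    ring
  rcases le_total |(k.2 : ℝ)| |(k.1 : ℝ)| with h | h
  · have h1 : nk k ≤ 3 / 2 * |(k.1 : ℝ)| := by
      have h2 : (k.2 : ℝ) ^ 2 ≤ (k.1 : ℝ) ^ 2 := sq_le_sq.2 h
      have h3 : nk k ^ 2 ≤ (3 / 2 * |(k.1 : ℝ)|) ^ 2 := by
        rw [hsq, mul_pow, sq_abs]; nlinarith [sq_nonneg (k.1 : ℝ)]
      exact abs_le_of_sq_le_sq' h3 (by positivity) |>.2
    have hk1 : k.1 ≠ 0 := by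
      intro h0
      rw [h0] at h1
      simp at h1
      linarith
    exact strip_card k.1 k.2 k.1 hρ hσ hk.le hk1 h1 S (fun q hq => (dx_fst k q).trans (hS q hq)) hS2
  · have h1 : nk k ≤ 3 / 2 * |(k.2 : ℝ)| := by
      have h2 : (k.1 : ℝ) ^ 2 ≤ (k.2 : ℝ) ^ 2 := sq_le_sq.2 h
      have h3 : nk k ^ 2 ≤ (3 / 2 * |(k.2 : ℝ)|) ^ 2 := by
        rw [hsq, mul_pow, sq_abs]; nlinarith [sq_nonneg (k.2 : ℝ)]
      exact abs_le_of_sq_le_sq' h3 (by positivity) |>.2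
    have hk1 : k.2 ≠ 0 := by
      intro h0
      rw [h0] at h1
      simp at h1
      linarith
    have hinj : Function.Injective (Prod.swap : ℤ × ℤ → ℤ × ℤ) := Prod.swap_injective
    classical
    rw [← Finset.card_image_of_injective S hinj]
    refine strip_card k.2 k.1 k.2 hρ hσ hk.le hk1 h1 (S.image Prod.swap) ?_ ?_
    · intro q hq
      obtain ⟨p, hp, rfl⟩ := Finset.mem_image.1 hq
      exact (dx_snd k p).trans (hS p hp)
    · intro q hq
      obtain ⟨p, hp, rfl⟩ := Finset.mem_image.1 hq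
      have := hS2 p hp
      rw [abs_sub_comm] at this
      exact this

/-- the cross product is controlled by the directions -/
theorem cross_le (k q : ℤ × ℤ) : |(k.1 : ℝ) * q.2 - k.2 * q.1| ≤ nk k * (nk q * ‖zk k - zk q‖) := by
  have h1 : (k.1 : ℝ) * q.2 - k.2 * q.1 = ((starRingEnd ℂ) (cz k) * cz q).im := by
    simp [cz, Complex.mul_im]
    ring
  have h2 : (starRingEnd ℂ) (cz k) * cz q =
      ((nk k * nk q : ℝ) : ℂ) * ((starRingEnd ℂ) (zk k) * zk q) := by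
    rw [← nk_zk k, ← nk_zk q, map_mul, Complex.conj_ofReal]
    push_cast
    ring
  have h3 : ((starRingEnd ℂ) (zk k) * zk q).im = ((starRingEnd ℂ) (zk k) * (zk q - zk k)).im := by
    rw [mul_sub, Complex.sub_im]
    have : ((starRingEnd ℂ) (zk k) * zk k).im = 0 := by
      rw [mul_comm, Complex.mul_conj]
      exact Complex.ofReal_im _
    rw [this, sub_zero]
  rw [h1, h2, Complex.im_ofReal_mul, h3, abs_mul, abs_of_nonneg (mul_nonneg (norm_nonneg _) (norm_nonneg _) : 0 ≤ nk k * nk q),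
    mul_assoc]
  refine mul_le_mul_of_nonneg_left (mul_le_mul_of_nonneg_left ?_ (norm_nonneg _)) (norm_nonneg _)
  refine (Complex.abs_im_le_norm _).trans ?_
  rw [norm_mul, RCLike.norm_conj, zk_norm, one_mul, norm_sub_rev]

open Classical in
theorem collisions_rect {J n : ℕ} (hJ : 2 ≤ J) {η τ : ℝ} (hη : 0 < η) (hτ : 0 < τ) (hτ1 : τ ≤ 1)
    (A : Fin J → Finset (ℤ × ℤ)) (hA : ∀ i, ∀ k ∈ A i, (2 : ℝ) ^ n ≤ nk k ∧ nk k ≤ 2 ^ (n + 1))
    (hs : ∀ i j, i ≠ j → ∀ k ∈ A i, ∀ k' ∈ A j, τ ≤ ‖zk k - zk k'‖)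
    (h1 : J * 4 ^ J * (2 * η) ≤ 2 ^ n * τ ^ (2 * J - 1)) (h2 : 50 * J * 4 ^ J * η < τ ^ (2 * J - 3))
    (k : Fin J → ℤ × ℤ) (hk : k ∈ Fintype.piFinset A) :
    (((Fintype.piFinset A).filter (fun k' => ∀ l < 2 * J, ‖Mom k k' l‖ ≤ η)).card : ℝ) ≤
      (2 * (25 * J * 4 ^ J * η / τ ^ (2 * J - 1)) + 1) * (3 * (4 ^ J * η / τ ^ (2 * J - 2)) + 1) := by
  obtain ⟨J', rfl⟩ : ∃ J', J = J' + 1 := ⟨J - 1, by omega⟩
  have hJ' : 1 ≤ J' := by omega
  set S := (Fintype.piFinset A).filter (fun k' => ∀ l < 2 * (J' + 1), ‖Mom k k' l‖ ≤ η) with hSdef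
  have hK : (0 : ℝ) < 2 ^ n := by positivity
  have h2K : (2 : ℝ) ^ (n + 1) = 2 * 2 ^ n := by ring
  have hkA : ∀ i, k i ∈ A i := Fintype.mem_piFinset.mp hk
  have hSA : ∀ k' ∈ S, ∀ i, k' i ∈ A i := by
    intro k' hk'
    exact Fintype.mem_piFinset.mp (Finset.mem_filter.mp hk').1
  have hSM : ∀ k' ∈ S, ∀ l < 2 * (J' + 1), ‖Mom k k' l‖ ≤ η := fun k' hk' =>
    (Finset.mem_filter.mp hk').2
  have hρ0 : 0 ≤ 25 * ((J' + 1 : ℕ) : ℝ) * 4 ^ (J' + 1) * η / τ ^ (2 * (J' + 1) - 1) := by positivity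
  have hσ0 : 0 ≤ 4 ^ (J' + 1) * η / τ ^ (2 * (J' + 1) - 2) := by positivity
  -- (a)
  have ha : ∀ k' ∈ S, ‖cz (k 0) - cz (k' 0)‖ ≤
      25 * ((J' + 1 : ℕ) : ℝ) * 4 ^ (J' + 1) * η / τ ^ (2 * (J' + 1) - 1) := by
    intro k' hk'
    have h := separation (J := J' + 1) (by omega) hK hη.le hτ hτ1 (fun i => nk (k i))
      (fun i => nk (k' i)) (fun i => zk (k i)) (fun i => zk (k' i)) (fun i => zk_norm _)
      (fun i => zk_norm _) (fun i => by rw [← h2K]; exact hA i _ (hkA i))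
      (fun i => by rw [← h2K]; exact hA i _ (hSA k' hk' i))
      (fun i j hij => ⟨hs i j hij _ (hkA i) _ (hkA j), hs i j hij _ (hkA i) _ (hSA k' hk' j),
        hs i j hij _ (hSA k' hk' i) _ (hkA j), hs i j hij _ (hSA k' hk' i) _ (hSA k' hk' j)⟩)
      (fun l hl => hSM k' hk' l hl) (by
        refine le_trans ?_ h1
        have : 0 ≤ ((J' + 1 : ℕ) : ℝ) * 4 ^ (J' + 1) := by positivity
        nlinarith) 0
    rw [nk_zk, nk_zk] at h
    exact h
  have hdir : ∀ k' ∈ S, |((k 0).1 : ℝ) * (k' 0).2 - (k 0).2 * (k' 0).1| ≤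
      nk (k 0) * (4 ^ (J' + 1) * η / τ ^ (2 * (J' + 1) - 2)) := by
    intro k' hk'
    have h := separation_dir (J := J' + 1) (by omega) hK hτ (fun i => nk (k i))
      (fun i => nk (k' i)) (fun i => zk (k i)) (fun i => zk (k' i)) (fun i => zk_norm _)
      (fun i => zk_norm _) (fun i => (hA i _ (hkA i)).1)
      (fun i j hij => ⟨hs i j hij _ (hkA i) _ (hkA j), hs i j hij _ (hkA i) _ (hSA k' hk' j)⟩)
      (fun l hl => hSM k' hk' l hl) 0
    refine (cross_le _ _).trans (mul_le_mul_of_nonneg_left ?_ (norm_nonneg _))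
    have h3 : nk (k' 0) ≤ 2 * 2 ^ n := by rw [← h2K]; exact (hA 0 _ (hSA k' hk' 0)).2
    calc nk (k' 0) * ‖zk (k 0) - zk (k' 0)‖
        ≤ (2 * 2 ^ n) * (2 * 4 ^ (J' + 1 - 1) * η / (2 ^ n * τ ^ (2 * (J' + 1) - 2))) := by
          gcongr
      _ = 4 ^ (J' + 1) * η / τ ^ (2 * (J' + 1) - 2) := by
          have e1 : J' + 1 - 1 = J' := by omega
          rw [e1, pow_succ]
          field_simp
          ring
  -- (b)
  have hinj : Set.InjOn (fun k' : Fin (J' + 1) → ℤ × ℤ => k' 0) (S : Set (Fin (J' + 1) → ℤ × ℤ)) := by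
    intro k' hk' k'' hk'' he
    rw [Finset.mem_coe] at hk' hk''
    have he' : k' 0 = k'' 0 := he
    have hM2 : ∀ l < 2 * J', ‖∑ i : Fin J', ((nk (k' i.succ) : ℂ) * zk (k' i.succ) ^ l -
        (nk (k'' i.succ) : ℂ) * zk (k'' i.succ) ^ l)‖ ≤ 2 * η := by
      intro l hl
      have e1 : (∑ i : Fin J', ((nk (k' i.succ) : ℂ) * zk (k' i.succ) ^ l -
          (nk (k'' i.succ) : ℂ) * zk (k'' i.succ) ^ l)) = Mom k k'' l - Mom k k' l := by
        unfold Mom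
        rw [← Finset.sum_sub_distrib, Fin.sum_univ_succ, he']
        have e2 : ((nk (k 0) : ℂ) * zk (k 0) ^ l - (nk (k'' 0) : ℂ) * zk (k'' 0) ^ l -
            ((nk (k 0) : ℂ) * zk (k 0) ^ l - (nk (k'' 0) : ℂ) * zk (k'' 0) ^ l)) = 0 := by ring
        rw [e2, zero_add]
        refine Finset.sum_congr rfl fun i _ => ?_
        ring
      rw [e1]
      refine (norm_sub_le _ _).trans ?_
      have h3 := hSM k'' hk'' l (by omega)
      have h4 := hSM k' hk' l (by omega)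
      linarith
    have hjj : ((J' : ℕ) : ℝ) * 4 ^ J' ≤ ((J' + 1 : ℕ) : ℝ) * 4 ^ (J' + 1) := by
      have h5 : ((J' : ℕ) : ℝ) ≤ ((J' + 1 : ℕ) : ℝ) := by push_cast; linarith
      have h6 : (4 : ℝ) ^ J' ≤ 4 ^ (J' + 1) := pow_le_pow_right₀ (by norm_num) (by omega)
      exact mul_le_mul h5 h6 (by positivity) (by positivity)
    have hH2 : ((J' : ℕ) : ℝ) * 4 ^ J' * (2 * η) ≤ 2 ^ n * τ ^ (2 * J' - 1) := by
      calc ((J' : ℕ) : ℝ) * 4 ^ J' * (2 * η) ≤ ((J' + 1 : ℕ) : ℝ) * 4 ^ (J' + 1) * (2 * η) :=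
            mul_le_mul_of_nonneg_right hjj (by positivity)
        _ ≤ 2 ^ n * τ ^ (2 * (J' + 1) - 1) := h1
        _ ≤ 2 ^ n * τ ^ (2 * J' - 1) :=
            mul_le_mul_of_nonneg_left (pow_le_pow_of_le_one hτ.le hτ1 (by omega)) hK.le
    have hsucc : ∀ i j : Fin J', i ≠ j → i.succ ≠ j.succ := fun i j hij h =>
      hij (Fin.succ_injective _ h)
    funext i
    refine Fin.cases he' (fun i => ?_) i
    have h := separation (J := J') hJ' hK (by positivity : (0 : ℝ) ≤ 2 * η) hτ hτ1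
      (fun i => nk (k' i.succ)) (fun i => nk (k'' i.succ)) (fun i => zk (k' i.succ))
      (fun i => zk (k'' i.succ)) (fun i => zk_norm _)
      (fun i => zk_norm _) (fun i => by rw [← h2K]; exact hA _ _ (hSA k' hk' _))
      (fun i => by rw [← h2K]; exact hA _ _ (hSA k'' hk'' _))
      (fun i j hij => ⟨hs _ _ (hsucc i j hij) _ (hSA k' hk' _) _ (hSA k' hk' _),
        hs _ _ (hsucc i j hij) _ (hSA k' hk' _) _ (hSA k'' hk'' _),
        hs _ _ (hsucc i j hij) _ (hSA k'' hk'' _) _ (hSA k' hk' _),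
        hs _ _ (hsucc i j hij) _ (hSA k'' hk'' _) _ (hSA k'' hk'' _)⟩)
      hM2 hH2 i
    rw [nk_zk, nk_zk] at h
    apply dx_lt_one
    refine h.trans_lt ?_
    rw [div_lt_one (by positivity)]
    have e3 : 2 * (J' + 1) - 3 = 2 * J' - 1 := by omega
    rw [e3] at h2
    refine lt_of_le_of_lt ?_ h2
    have : 25 * ((J' : ℕ) : ℝ) * 4 ^ J' * (2 * η) = 50 * η * (((J' : ℕ) : ℝ) * 4 ^ J') := by ring
    rw [this]
    have h7 : 50 * ((J' + 1 : ℕ) : ℝ) * 4 ^ (J' + 1) * η =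
        50 * η * (((J' + 1 : ℕ) : ℝ) * 4 ^ (J' + 1)) := by ring
    rw [h7]
    exact mul_le_mul_of_nonneg_left hjj (by positivity)
  have hcard : S.card = (S.image (fun k' : Fin (J' + 1) → ℤ × ℤ => k' 0)).card :=
    (Finset.card_image_of_injOn hinj).symm
  rw [hcard]
  apply int_rect_card (k 0) (lt_of_lt_of_le hK (hA 0 _ (hkA 0)).1) hρ0 hσ0
  · intro q hq
    obtain ⟨k', hk', rfl⟩ := Finset.mem_image.mp hq
    exact ha k' hk'
  · intro q hq
    obtain ⟨k', hk', rfl⟩ := Finset.mem_image.mp hq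
    exact hdir k' hk'

end Pool.Agent.Helper85.SX
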